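import Pool.Agent.K3h5.FF.Stm

set_option autoImplicit false

open MeasureTheory Filter Topology ProbabilityTheory Set

namespace Pool.Agent.K3h40.FF

open Pool.Agent.K3h5.FF

theorem dmeas_prob {f : ℝ → ℝ} (hc : ContinuousOn f (Icc 0 1)) (h0 : ∀ x ∈ Icc (0 : ℝ) 1, 0 ≤ f x)
    (h1 : ∫ x in (0 : ℝ)..1, f x = 1) : IsProbabilityMeasure (dmeas f) := by
  constructor
  unfold dmeas
  rw [withDensity_apply _ MeasurableSet.univ, Measure.restrict_univ]
  have hint : IntegrableOn f (Ioo (0 : ℝ) 1) volume :=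
    (hc.integrableOn_Icc).mono_set Ioo_subset_Icc_self
  rw [← ofReal_integral_eq_lintegral_ofReal hint]
  · rw [← integral_Ioc_eq_integral_Ioo, ← intervalIntegral.integral_of_le zero_le_one, h1,
      ENNReal.ofReal_one]
  · filter_upwards [ae_restrict_mem measurableSet_Ioo] with x hx
    exact h0 x (Ioo_subset_Icc_self hx)

/-- the laws of the random variables -/
noncomputable def law (lam : ℤ → ℝ → ℝ) (phi : ℝ → ℝ) : Idx → Measure ℝ
  | Sum.inl k => (poissonMeasure (Real.toNNReal (∫ x in (0 : ℝ)..1, lam k x))).map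
      (fun m : ℕ => (m : ℝ))
  | Sum.inr (Sum.inl (k, _)) => dmeas fun x => lam k x / ∫ t in (0 : ℝ)..1, lam k t
  | Sum.inr (Sum.inr _) => dmeas phi

theorem law_prob {lam : ℤ → ℝ → ℝ} {phi : ℝ → ℝ} (h1 : ∀ k, ContinuousOn (lam k) (Icc 0 1))
    (h2 : ∀ k, ∀ x ∈ Icc (0 : ℝ) 1, 0 < lam k x) (h3 : ContinuousOn phi (Icc 0 1))
    (h4 : ∀ x ∈ Icc (0 : ℝ) 1, 0 < phi x) (h5 : ∫ x in (0 : ℝ)..1, phi x = 1) (i : Idx) :
    IsProbabilityMeasure (law lam phi i) := by
  rcases i with k | ⟨k, m⟩ | j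
  · exact Measure.isProbabilityMeasure_map (measurable_from_top.aemeasurable)
  · have hI : 0 < ∫ t in (0 : ℝ)..1, lam k t := by
      refine intervalIntegral.intervalIntegral_pos_of_pos_on ?_
        (fun x hx => h2 k x (Ioo_subset_Icc_self hx)) one_pos
      refine ContinuousOn.intervalIntegrable ?_
      rw [uIcc_of_le zero_le_one]
      exact h1 k
    refine dmeas_prob ((h1 k).div_const _) (fun x hx => (div_pos (h2 k x hx) hI).le) ?_
    rw [intervalIntegral.integral_div, div_self hI.ne']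
  · exact dmeas_prob h3 (fun x hx => (h4 x hx).le) h5

theorem t_EXR : S_EXR := by
  intro lam phi h1 h2 h3 h4 h5
  have hp : ∀ i, IsProbabilityMeasure (law lam phi i) := law_prob h1 h2 h3 h4 h5
  have hm : ∀ i, (Measure.infinitePi (law lam phi)).map (fun y : Idx → ℝ => y i) =
      law lam phi i := fun i => (measurePreserving_eval_infinitePi (law lam phi) i).map_eq
  refine ⟨Measure.infinitePi (law lam phi), ?_, ?_, ?_, ?_, ?_, ?_⟩
  · infer_instance
  · exact fun i => measurable_pi_apply i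
  · exact iIndepFun_infinitePi (P := law lam phi) (X := fun _ x => x) (fun _ => measurable_id)
  · exact fun k => hm (Sum.inl k)
  · exact fun k m => hm (Sum.inr (Sum.inl (k, m)))
  · exact fun j => hm (Sum.inr (Sum.inr j))

end Pool.Agent.K3h40.FF
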