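import Pool.Agent.K3h5.FF.Stm

set_option autoImplicit false

open MeasureTheory Filter Topology ProbabilityTheory Set

namespace Pool.Agent.K3h40.FF

open Pool.Agent.K3h5.FF

theorem t_PFM : S_PFM := by
  intro L c
  rw [lintegral_countable']
  have hterm : ∀ k : ℕ, (((k + c).descFactorial c : ℕ) : ENNReal) * (poissonMeasure L) {k + c} =
      ((L : NNReal) : ENNReal) ^ c * (poissonMeasure L) {k} := by
    intro k
    rw [poissonMeasure_singleton, poissonMeasure_singleton]
    have h1 : (((k + c).descFactorial c : ℕ) : ENNReal) =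
        ENNReal.ofReal (((k + c).descFactorial c : ℕ) : ℝ) := (ENNReal.ofReal_natCast _).symm
    have h2 : ((L : NNReal) : ENNReal) ^ c = ENNReal.ofReal ((L : ℝ) ^ c) := by
      rw [ENNReal.ofReal_pow (NNReal.coe_nonneg L), ENNReal.ofReal_coe_nnreal]
    rw [h1, h2, ← ENNReal.ofReal_mul (by positivity), ← ENNReal.ofReal_mul (by positivity)]
    congr 1
    have h3 : ((k.factorial : ℕ) : ℝ) * (((k + c).descFactorial c : ℕ) : ℝ) =
        (((k + c).factorial : ℕ) : ℝ) := by
      have h := Nat.factorial_mul_descFactorial (n := k + c) (k := c) (by omega)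
      rw [Nat.add_sub_cancel] at h
      exact_mod_cast h
    have h4 : ((k.factorial : ℕ) : ℝ) ≠ 0 := by positivity
    have h5 : (((k + c).factorial : ℕ) : ℝ) ≠ 0 := by positivity
    rw [pow_add]
    field_simp
    rw [← h3]
    ring
  have hzero : ∀ N ∈ Finset.range c, ((N.descFactorial c : ℕ) : ENNReal) *
      (poissonMeasure L) {N} = 0 := by
    intro N hN
    rw [Nat.descFactorial_eq_zero_iff_lt.2 (Finset.mem_range.1 hN)]
    simp
  rw [← ENNReal.summable.sum_add_tsum_nat_add' (k := c), Finset.sum_eq_zero hzero, zero_add]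
  simp only [hterm]
  rw [ENNReal.tsum_mul_left]
  have h1 : ∑' k : ℕ, (poissonMeasure L) {k} = 1 := by
    have h := lintegral_countable' (μ := poissonMeasure L) (fun _ => 1)
    simp only [lintegral_const, measure_univ, one_mul] at h
    exact h.symm
  rw [h1, mul_one]

end Pool.Agent.K3h40.FF
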