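import Pool.Agent.K3h5.FF.Stm

set_option autoImplicit false

open MeasureTheory Filter Topology ProbabilityTheory Set

namespace Pool.Agent.K3h40.FF

open Pool.Agent.K3h5.FF

theorem exp_sub_le {a b M : ℝ} (ha : a ≤ M) (hb : b ≤ M) :
    |Real.exp a - Real.exp b| ≤ Real.exp M * |a - b| := by
  have key : ∀ a b : ℝ, a ≤ M → b ≤ a → Real.exp a - Real.exp b ≤ Real.exp M * (a - b) := by
    intro a b ha hba
    have h1 : Real.exp b = Real.exp a * Real.exp (b - a) := by
      rw [← Real.exp_add]
      congr 1
      ring
    have h2 := Real.add_one_le_exp (b - a)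
    have h3 : Real.exp a ≤ Real.exp M := Real.exp_le_exp.2 ha
    have h4 : 0 < Real.exp a := Real.exp_pos a
    calc Real.exp a - Real.exp b = Real.exp a * (1 - Real.exp (b - a)) := by rw [h1]; ring
      _ ≤ Real.exp a * (a - b) := by
          apply mul_le_mul_of_nonneg_left _ h4.le
          linarith
      _ ≤ Real.exp M * (a - b) := mul_le_mul_of_nonneg_right h3 (by linarith)
  rcases le_total b a with h | h
  · rw [abs_of_nonneg (sub_nonneg.2 (Real.exp_le_exp.2 h)), abs_of_nonneg (sub_nonneg.2 h)]
    exact key a b ha h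
  · rw [abs_sub_comm, abs_sub_comm a b, abs_of_nonneg (sub_nonneg.2 (Real.exp_le_exp.2 h)),
      abs_of_nonneg (sub_nonneg.2 h)]
    exact key b a hb h

theorem t_QN : S_QN := by
  intro q β hq hlim
  have hlog : Tendsto (fun n : ℕ => (n : ℝ) * Real.log (q n)) atTop (𝓝 (-β)) := by
    have h1 : Tendsto (fun n : ℕ => (n : ℝ) * (q n - 1)) atTop (𝓝 (-β)) := by
      refine hlim.neg.congr fun n => ?_
      ring
    refine (Real.tendsto_nat_mul_log_one_add_of_tendsto h1).congr fun n => ?_
    congr 2
    ring
  obtain ⟨B, hB⟩ : ∃ B : ℝ, ∀ n : ℕ, |(n : ℝ) * Real.log (q n)| ≤ B := by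
    obtain ⟨B, hB⟩ := hlog.bddAbove_range
    obtain ⟨B', hB'⟩ := hlog.bddBelow_range
    refine ⟨max B (-B'), fun n => ?_⟩
    rw [abs_le]
    constructor
    · have h1 : B' ≤ (n : ℝ) * Real.log (q n) := hB' (mem_range_self n)
      have h2 := le_max_right B (-B')
      linarith
    · exact (hB (mem_range_self n)).trans (le_max_left _ _)
  have hB0 : 0 ≤ B := (abs_nonneg _).trans (hB 0)
  refine ⟨hlog, ⟨Real.exp B, Real.one_le_exp hB0, fun n => ?_⟩, ?_⟩
  · have h1 : max (q n) (q n)⁻¹ = Real.exp |Real.log (q n)| := by
      rcases le_total 1 (q n) with h | h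
      · rw [abs_of_nonneg (Real.log_nonneg h), Real.exp_log (hq n), max_eq_left]
        exact (inv_le_one_of_one_le₀ h).trans h
      · rw [abs_of_nonpos (Real.log_nonpos (hq n).le h), Real.exp_neg, Real.exp_log (hq n),
          max_eq_right]
        exact h.trans ((one_le_inv₀ (hq n)).2 h)
    rw [h1, ← Real.exp_nat_mul, Real.exp_le_exp]
    have h2 := hB n
    rwa [abs_mul, Nat.abs_cast] at h2
  · intro ε hε
    set M : ℝ := B + |β| with hM
    have hδ : Tendsto (fun n : ℕ => Real.exp M * (|(n : ℝ) * Real.log (q n) + β| + |β| / n)) atTop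
        (𝓝 0) := by
      have h1 : Tendsto (fun n : ℕ => |(n : ℝ) * Real.log (q n) + β|) atTop (𝓝 0) := by
        have h := (hlog.add_const β).abs
        rwa [neg_add_cancel, abs_zero] at h
      have h2 : Tendsto (fun n : ℕ => |β| / (n : ℝ)) atTop (𝓝 0) :=
        tendsto_const_div_atTop_nhds_zero_nat _
      have h3 := (h1.add h2).const_mul (Real.exp M)
      rwa [add_zero, mul_zero] at h3
    filter_upwards [hδ.eventually (ge_mem_nhds hε), eventually_ge_atTop 1] with n hn hn1
    intro k hk
    have hn0 : (0 : ℝ) < n := by exact_mod_cast hn1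
    set δ : ℝ := Real.exp M * (|(n : ℝ) * Real.log (q n) + β| + |β| / n) with hδd
    have hδ0 : 0 ≤ δ := by positivity
    -- the integral as a sum
    have hcont : Continuous fun t : ℝ => Real.exp (-β * t) := by fun_prop
    have hint : g β (k / n) = ∑ j ∈ Finset.range k,
        ∫ t in ((j : ℝ) / n)..(((j + 1 : ℕ) : ℝ) / n), Real.exp (-β * t) := by
      have h := intervalIntegral.sum_integral_adjacent_intervals (μ := volume)
        (f := fun t : ℝ => Real.exp (-β * t)) (a := fun j : ℕ => (j : ℝ) / n) (n := k)
        (fun j _ => hcont.intervalIntegrable _ _)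
      rw [h]
      unfold g
      simp
    have hqn : qn (q n) k / n = ∑ j ∈ Finset.range k,
        ∫ t in ((j : ℝ) / n)..(((j + 1 : ℕ) : ℝ) / n), q n ^ j := by
      unfold qn
      rw [Finset.sum_div]
      refine Finset.sum_congr rfl fun j _ => ?_
      rw [intervalIntegral.integral_const, smul_eq_mul]
      push_cast
      field_simp
      ring
    rw [hint, hqn, ← Finset.sum_sub_distrib]
    have hstep : ∀ j ∈ Finset.range k,
        |(∫ t in ((j : ℝ) / n)..(((j + 1 : ℕ) : ℝ) / n), q n ^ j) -
          ∫ t in ((j : ℝ) / n)..(((j + 1 : ℕ) : ℝ) / n), Real.exp (-β * t)| ≤ δ / n := by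
      intro j hj
      have hjk : j < k := Finset.mem_range.1 hj
      have hjn : j < n := lt_of_lt_of_le hjk hk
      have hjn' : ((j : ℝ) + 1) ≤ n := by exact_mod_cast hjn
      rw [← intervalIntegral.integral_sub (by simp) (hcont.intervalIntegrable _ _)]
      have hle : ((j : ℝ) / n) ≤ (((j + 1 : ℕ) : ℝ) / n) := by
        push_cast
        apply div_le_div_of_nonneg_right _ hn0.le
        linarith
      have h1 := intervalIntegral.norm_integral_le_of_norm_le_const (a := (j : ℝ) / n)
        (b := ((j + 1 : ℕ) : ℝ) / n) (C := δ) (f := fun t => q n ^ j - Real.exp (-β * t)) (by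
          intro t ht
          rw [uIoc_of_le hle] at ht
          obtain ⟨ht1, ht2⟩ := ht
          have e1 : q n ^ j = Real.exp (j * Real.log (q n)) := by
            rw [Real.exp_nat_mul, Real.exp_log (hq n)]
          rw [Real.norm_eq_abs, e1]
          have hj0 : (0 : ℝ) ≤ j := Nat.cast_nonneg j
          have ht0 : 0 ≤ t := (div_nonneg hj0 hn0.le).trans ht1.le
          have ht1' : t ≤ 1 := by
            refine ht2.trans ?_
            push_cast
            rw [div_le_one hn0]
            exact hjn'
          have ha : (j : ℝ) * Real.log (q n) ≤ M := by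
            have e2 : |(j : ℝ) * Real.log (q n)| ≤ |(n : ℝ) * Real.log (q n)| := by
              rw [abs_mul, abs_mul, Nat.abs_cast, Nat.abs_cast]
              apply mul_le_mul_of_nonneg_right _ (abs_nonneg _)
              linarith
            have e3 := le_abs_self ((j : ℝ) * Real.log (q n))
            have e4 := hB n
            have e5 := abs_nonneg β
            linarith
          have hb : -β * t ≤ M := by
            have e2 : -β * t ≤ |β| * 1 := by
              calc -β * t ≤ |-β * t| := le_abs_self _
                _ = |β| * t := by rw [abs_mul, abs_neg, abs_of_nonneg ht0]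
                _ ≤ |β| * 1 := mul_le_mul_of_nonneg_left ht1' (abs_nonneg _)
            linarith
          refine (exp_sub_le ha hb).trans ?_
          rw [hδd]
          apply mul_le_mul_of_nonneg_left _ (Real.exp_pos M).le
          have e6 : (j : ℝ) * Real.log (q n) - -β * t =
              (j : ℝ) / n * ((n : ℝ) * Real.log (q n) + β) + β * (t - j / n) := by
            field_simp
            ring
          rw [e6]
          refine (abs_add_le _ _).trans ?_
          rw [abs_mul, abs_mul]
          have e7 : |(j : ℝ) / n| ≤ 1 := by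
            rw [abs_of_nonneg (div_nonneg hj0 hn0.le), div_le_one hn0]
            linarith
          have e8 : |t - (j : ℝ) / n| ≤ 1 / n := by
            rw [abs_of_nonneg (by linarith)]
            have : (((j + 1 : ℕ) : ℝ) / n) = (j : ℝ) / n + 1 / n := by push_cast; ring
            linarith
          have e9 : |(j : ℝ) / n| * |(n : ℝ) * Real.log (q n) + β| ≤
              1 * |(n : ℝ) * Real.log (q n) + β| := mul_le_mul_of_nonneg_right e7 (abs_nonneg _)
          have e10 : |β| * |t - (j : ℝ) / n| ≤ |β| * (1 / n) :=
            mul_le_mul_of_nonneg_left e8 (abs_nonneg _)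
          have e11 : |β| * (1 / (n : ℝ)) = |β| / n := by ring
          linarith)
      rw [Real.norm_eq_abs] at h1
      refine h1.trans (le_of_eq ?_)
      have e12 : (((j + 1 : ℕ) : ℝ) / n) - (j : ℝ) / n = 1 / n := by push_cast; ring
      rw [e12, abs_of_nonneg (by positivity)]
      ring
    refine (Finset.abs_sum_le_sum_abs _ _).trans ((Finset.sum_le_sum hstep).trans ?_)
    rw [Finset.sum_const, Finset.card_range, nsmul_eq_mul]
    have hk' : (k : ℝ) ≤ n := by exact_mod_cast hk
    calc (k : ℝ) * (δ / n) ≤ n * (δ / n) := mul_le_mul_of_nonneg_right hk' (by positivity)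
      _ = δ := by field_simp
      _ ≤ ε := hn

end Pool.Agent.K3h40.FF
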