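import Pool.Agent.K3h5.FF.Stm

set_option autoImplicit false

open MeasureTheory Filter Topology ProbabilityTheory Set

namespace Pool.Agent.K3h40.FF

open Pool.Agent.K3h5.FF

theorem t_SCH : S_SCH := by
  intro T _ p q hp hq hp1 hq1 hpq A
  set M : ℕ → T → ℝ := fun n t => min (p n t) (q t) with hM
  have hM0 : ∀ n t, 0 ≤ M n t := fun n t => le_min (hp n t) (hq t)
  have hMp : ∀ n t, M n t ≤ p n t := fun n t => min_le_left _ _
  have hMq : ∀ n t, M n t ≤ q t := fun n t => min_le_right _ _
  have hMlim : ∀ t, Tendsto (fun n => M n t) atTop (𝓝 (q t)) := by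
    intro t
    have h := (hpq t).min (tendsto_const_nhds (x := q t))
    rw [min_self] at h
    exact h
  have hMs : ∀ n, Summable (M n) := fun n => Summable.of_nonneg_of_le (hM0 n) (hMq n) hq1.summable
  -- dominated convergence
  have h1 : Tendsto (fun n => ∑' t, M n t) atTop (𝓝 1) := by
    have h := tendsto_tsum_of_dominated_convergence (f := M) (g := q) (𝓕 := atTop) hq1.summable hMlim
      (Eventually.of_forall fun n t => by
        rw [Real.norm_of_nonneg (hM0 n t)]; exact hMq n t)
    rw [hq1.tsum_eq] at h
    exact h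
  have h2 : Tendsto (fun n => ∑' t, A.indicator (M n) t) atTop (𝓝 (∑' t, A.indicator q t)) := by
    refine tendsto_tsum_of_dominated_convergence (𝓕 := atTop) hq1.summable (fun t => ?_)
      (Eventually.of_forall fun n t => ?_)
    · by_cases ht : t ∈ A
      · simp only [indicator_of_mem ht]
        exact hMlim t
      · simp only [indicator_of_notMem ht]
        exact tendsto_const_nhds
    · by_cases ht : t ∈ A
      · rw [indicator_of_mem ht, Real.norm_of_nonneg (hM0 n t)]
        exact hMq n t
      · rw [indicator_of_notMem ht, norm_zero]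
        exact hq t
  have h3 : ∀ n, ∑' t, A.indicator (M n) t ≤ ∑' t, A.indicator (p n) t := by
    intro n
    refine Summable.tsum_le_tsum (fun t => ?_) ((hMs n).indicator A) ((hp1 n).summable.indicator A)
    exact indicator_le_indicator (hMp n t)
  have h4 : ∀ n, ∑' t, A.indicator (p n) t ≤ ∑' t, A.indicator (M n) t + (1 - ∑' t, M n t) := by
    intro n
    have e1 : ∑' t, A.indicator (p n) t - ∑' t, A.indicator (M n) t =
        ∑' t, (A.indicator (p n) t - A.indicator (M n) t) :=
      (((hp1 n).summable.indicator A).tsum_sub ((hMs n).indicator A)).symm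
    have e2 : 1 - ∑' t, M n t = ∑' t, (p n t - M n t) := by
      rw [← (hp1 n).tsum_eq]
      exact ((hp1 n).summable.tsum_sub (hMs n)).symm
    have e3 : ∑' t, (A.indicator (p n) t - A.indicator (M n) t) ≤ ∑' t, (p n t - M n t) := by
      refine Summable.tsum_le_tsum (fun t => ?_)
        (((hp1 n).summable.indicator A).sub ((hMs n).indicator A)) ((hp1 n).summable.sub (hMs n))
      by_cases ht : t ∈ A
      · rw [indicator_of_mem ht, indicator_of_mem ht]
      · rw [indicator_of_notMem ht, indicator_of_notMem ht, sub_zero]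
        exact sub_nonneg.2 (hMp n t)
    linarith
  have h5 : Tendsto (fun n => ∑' t, A.indicator (M n) t + (1 - ∑' t, M n t)) atTop
      (𝓝 (∑' t, A.indicator q t)) := by
    have h := h2.add ((tendsto_const_nhds (x := (1 : ℝ))).sub h1)
    rw [sub_self, add_zero] at h
    exact h
  exact tendsto_of_tendsto_of_tendsto_of_le_of_le h2 h5 h3 h4

end Pool.Agent.K3h40.FF
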